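import Pool.Agent.MP_c69980_ag.H43.Spec9

/-!
A linear zero estimate.
-/

set_option autoImplicit false

namespace Pool.Agent.MP_c69980_ag.H43

open Finset Polynomial

section Zero

variable {F A ι J : Type} [Field F] [CommRing A] [Algebra F A] {x : ι → A}

theorem zero_mono {d d' : ℕ} {a : A} (h : d ≤ d') (ha : a ∈ Pol F x d) : a ∈ Pol F x d' := by
  obtain ⟨P, hP, rfl⟩ := ha
  exact ⟨P, (MvPolynomial.mem_restrictTotalDegree _ _ _).2
    (((MvPolynomial.mem_restrictTotalDegree _ _ _).1 hP).trans h), rfl⟩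

theorem zero_pmul {d d' : ℕ} {a b : A} (ha : a ∈ Pol F x d) (hb : b ∈ Pol F x d') :
    a * b ∈ Pol F x (d + d') := by
  obtain ⟨P, hP, rfl⟩ := ha
  obtain ⟨Q, hQ, rfl⟩ := hb
  exact ⟨P * Q, (MvPolynomial.mem_restrictTotalDegree _ _ _).2 ((P.totalDegree_mul Q).trans
    (add_le_add ((MvPolynomial.mem_restrictTotalDegree _ _ _).1 hP)
      ((MvPolynomial.mem_restrictTotalDegree _ _ _).1 hQ))), map_mul (MvPolynomial.aeval x) P Q⟩

theorem zero_one (d : ℕ) : (1 : A) ∈ Pol F x d :=
  ⟨1, (MvPolynomial.mem_restrictTotalDegree _ _ _).2 (by simp), map_one (MvPolynomial.aeval x)⟩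

variable [Fintype J] [DecidableEq J]

theorem zero_char {D : ℕ} {M : Matrix J J A} (h : ∀ j k, M j k ∈ Pol F x D) (n : ℕ) :
    M.charpoly.coeff n ∈ Pol F x (Fintype.card J * D) := by
  have h1 : ∀ j k n, (M.charmatrix j k).coeff n ∈ Pol F x D := fun j k n => by
    rw [Matrix.charmatrix_apply, coeff_sub, coeff_C, Matrix.diagonal_apply]
    refine sub_mem ?_ ?_
    · split_ifs
      · rw [coeff_X]
        split_ifs
        exacts [zero_one D, zero_mem _]
      · exact zero_mem _
    · split_ifs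
      exacts [h j k, zero_mem _]
  have h2 : ∀ (p : J → A[X]) (s : Finset J), (∀ j n, (p j).coeff n ∈ Pol F x D) →
      ∀ n, (∏ j ∈ s, p j).coeff n ∈ Pol F x (#s * D) := fun p s hp => by
    induction s using Finset.induction_on with
    | empty =>
      intro n
      rw [prod_empty, coeff_one]
      split_ifs
      exacts [zero_one _, zero_mem _]
    | insert a s ha ih =>
      intro n
      rw [prod_insert ha, card_insert_of_notMem ha, coeff_mul, add_mul, one_mul, add_comm]
      exact sum_mem fun q _ => zero_pmul (hp a _) (ih _)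
  rw [Matrix.charpoly, Matrix.det_apply, finsetSum_coeff]
  refine sum_mem fun σ _ => ?_
  rw [Units.smul_def, coeff_smul]
  exact zsmul_mem (h2 _ univ (fun j => h1 _ j) n) _

variable (F x) in
/-- Elements whose multiplication matrix has small entries. -/
def zeroRep (e : J → A) (D : ℕ) : Submodule F A where
  carrier := {q | ∃ M : Matrix J J A, (∀ j k, M j k ∈ Pol F x D) ∧ M.mulVec e = q • e}
  add_mem' := by
    rintro a b ⟨M, h1, h2⟩ ⟨N, h3, h4⟩
    exact ⟨M + N, fun j k => add_mem (h1 j k) (h3 j k), by rw [Matrix.add_mulVec, h2, h4, add_smul]⟩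
  zero_mem' := ⟨0, fun _ _ => zero_mem _, by simp⟩
  smul_mem' := by
    rintro c a ⟨M, h1, h2⟩
    exact ⟨c • M, fun j k => Submodule.smul_mem _ c (h1 j k), by
      rw [Matrix.smul_mulVec, h2, smul_assoc]⟩

theorem zero_rmul {e : J → A} {d d' : ℕ} {a b : A} (ha : a ∈ zeroRep F x e d)
    (hb : b ∈ zeroRep F x e d') : a * b ∈ zeroRep F x e (d + d') := by
  obtain ⟨M, h1, h2⟩ := ha
  obtain ⟨N, h3, h4⟩ := hb
  exact ⟨M * N, fun j k => sum_mem fun l _ => zero_pmul (h1 j l) (h3 l k), by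
    rw [← Matrix.mulVec_mulVec, h4, Matrix.mulVec_smul, h2, smul_smul, mul_comm]⟩

theorem zero_rone (e : J → A) : (1 : A) ∈ zeroRep F x e 0 :=
  ⟨1, fun j k => by
    rw [Matrix.one_apply]
    split_ifs
    exacts [zero_one 0, zero_mem _], by simp⟩

theorem zero_rpow {e : J → A} {d : ℕ} {a : A} (ha : a ∈ zeroRep F x e d) (n : ℕ) :
    a ^ n ∈ zeroRep F x e (n * d) := by
  induction n with
  | zero => simpa using zero_rone e
  | succ n ih =>
    rw [pow_succ, add_mul, one_mul]
    exact zero_rmul ih ha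

theorem zero_dvd [IsDomain A] {e : J → A} {d : ℕ} {q : A} (he : e ≠ 0) (h0 : q ≠ 0)
    (hq : q ∈ zeroRep F x e d) : ∃ c ∈ Pol F x (Fintype.card J * d), c ≠ 0 ∧ q ∣ c := by
  obtain ⟨M, h1, h2⟩ := hq
  have h3 : M.charpoly.eval q = 0 := by
    rw [Matrix.eval_charpoly]
    refine Matrix.exists_mulVec_eq_zero_iff.1 ⟨e, he, ?_⟩
    rw [Matrix.sub_mulVec, h2, Matrix.scalar_apply, ← Matrix.smul_one_eq_diagonal,
      Matrix.smul_mulVec, Matrix.one_mulVec, sub_self]
  obtain ⟨ψ, h4, h5⟩ := exists_eq_pow_rootMultiplicity_mul_and_not_dvd _ M.charpoly_monic.ne_zero 0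
  rw [C_0, sub_zero] at h4 h5
  generalize rootMultiplicity 0 M.charpoly = k at h4
  have h6 := zero_char h1 (0 + k)
  rw [h4, coeff_X_pow_mul] at h6
  rw [h4, eval_mul, eval_pow, eval_X, mul_eq_zero, or_iff_right (pow_ne_zero _ h0),
    ← ψ.divX_mul_X_add, eval_add, eval_mul, eval_X, eval_C] at h3
  exact ⟨_, h6, fun h => h5 (X_dvd_iff.2 h), ⟨-ψ.divX.eval q, by linear_combination h3⟩⟩

end Zero

theorem sZero : SZero := by
  intro F A _ _ _ _ ν ι κ _ _ x g hν _ hx hg
  classical
  choose b₀ b1 b2 using fun i => (hg i).exists_integral_multiple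
  have b0 : ((∏ i, b₀ i : Algebra.adjoin F (Set.range x)) : A) ≠ 0 :=
    fun h => prod_ne_zero_iff.2 (fun i _ => b1 i) (Subtype.ext h)
  have b3 : ∀ i, IsIntegral (Algebra.adjoin F (Set.range x)) ((∏ i, b₀ i) • g i) := fun i => by
    rw [← prod_erase_mul _ _ (mem_univ i), mul_smul]
    exact (b2 i).smul _
  generalize ∏ i, b₀ i = b at b0 b3
  obtain ⟨N, e, he⟩ := Submodule.fg_iff_exists_fin_generating_family.1
    (fg_adjoin_of_finite (Set.finite_range _) (Set.forall_mem_range.2 b3))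
  have e0 : e ≠ 0 := by
    rintro rfl
    have : (1 : A) ∈ Submodule.span (Algebra.adjoin F (Set.range x)) (Set.range (0 : Fin N → A)) :=
      he ▸ one_mem (Algebra.adjoin (Algebra.adjoin F (Set.range x)) _)
    exact one_ne_zero ((Submodule.span_eq_bot.2 (Set.forall_mem_range.2 fun _ => rfl)).le this)
  have h1 : ∀ q ∈ Algebra.adjoin (Algebra.adjoin F (Set.range x)) (Set.range fun i => b • g i),
      ∃ D, ∀ D', D ≤ D' → q ∈ zeroRep F x e D' := fun q hq => by
    choose M hM using fun j => (Submodule.mem_span_range_iff_exists_fun _).1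
      (he.ge (mul_mem hq (he.le (Submodule.subset_span ⟨j, rfl⟩)) :))
    choose P hP using fun j k => (Algebra.adjoin_range_eq_range_aeval F x).le (M j k).2
    refine ⟨∑ j, ∑ k, (P j k).totalDegree, fun D hD => ⟨fun j k => M j k, fun j k =>
      ⟨P j k, (MvPolynomial.mem_restrictTotalDegree _ _ _).2 (le_trans ?_ hD), hP j k⟩,
      funext fun j => hM j⟩⟩
    exact (single_le_sum (f := fun k => (P j k).totalDegree) (fun _ _ => Nat.zero_le _)
      (mem_univ k)).trans (single_le_sum (f := fun j => ∑ k, (P j k).totalDegree)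
        (fun _ _ => Nat.zero_le _) (mem_univ j))
  obtain ⟨D₀, h2⟩ := h1 b (Subalgebra.algebraMap_mem _ b)
  choose D₁ h3 using fun i => h1 (b • g i) (Algebra.subset_adjoin ⟨i, rfl⟩)
  have h4 := h2 (D₀ + ∑ i, D₁ i) le_self_add
  have h5 := fun i => h3 i (D₀ + ∑ i, D₁ i) (le_add_left
    (single_le_sum (fun _ _ => Nat.zero_le _) (mem_univ i)))
  generalize D₀ + ∑ i, D₁ i = D at h4 h5
  refine ⟨N * D, ?_⟩
  rintro n _ ⟨P, hP, rfl⟩ hp
  have h6 : (b : A) ^ n * MvPolynomial.aeval g P ∈ zeroRep F x e (n * D) := by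
    rw [MvPolynomial.aeval_def, MvPolynomial.eval₂_eq', mul_sum]
    refine sum_mem fun m hm => ?_
    have a1 : ∑ i, m i ≤ n := by
      rw [← Finsupp.sum_fintype m (fun _ k => k) fun _ => rfl]
      exact (MvPolynomial.le_totalDegree hm).trans
        ((MvPolynomial.mem_restrictTotalDegree _ _ _).1 hP)
    have a2 : ∀ s : Finset κ, ∏ i ∈ s, (b • g i) ^ m i ∈ zeroRep F x e ((∑ i ∈ s, m i) * D) :=
      fun s => by
      induction s using Finset.induction_on with
      | empty => simpa using zero_rone e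
      | insert a s ha ih =>
        rw [prod_insert ha, sum_insert ha, add_mul]
        exact zero_rmul (zero_rpow (h5 a) _) ih
    obtain ⟨r, rfl⟩ := Nat.exists_eq_add_of_le' a1
    have a3 := zero_rmul (zero_rpow h4 r) (a2 univ)
    simp only [Subalgebra.smul_def, smul_eq_mul, mul_pow, prod_mul_distrib,
      prod_pow_eq_pow_sum] at a3
    rw [mul_left_comm, ← Algebra.smul_def, add_mul, pow_add, mul_assoc]
    exact Submodule.smul_mem _ _ a3
  obtain ⟨_, ⟨Q, hQ, rfl⟩, c1, r, hr⟩ := zero_dvd e0 (mul_ne_zero (pow_ne_zero n b0) hp) h6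
  have h7 := hx Q fun h => c1 (by rw [h, map_zero])
  rw [show MvPolynomial.aeval x Q = _ from hr, hν, hν] at h7
  refine ((le_add_self.trans le_self_add).trans h7).trans (Nat.cast_le.2
    (((MvPolynomial.mem_restrictTotalDegree _ _ _).1 hQ).trans ?_))
  rw [Fintype.card_fin, mul_assoc, mul_comm D]
  gcongr
  omega

end Pool.Agent.MP_c69980_ag.H43
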